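import Pool.Agent.Q52.Lonely.Quarter

/-!
The diagonal point `D_3` is a convex combination of other upper-boundary points of `MLPS_3`.
-/

namespace Pool.Agent.Results.MP_b0d7fb_nt.DiagonalInHull

open MeasureTheory Pool.Agent.Q52.Lonely

/-- The distance from `x` to the nearest integer. -/
noncomputable def dist1 (x : ℝ) : ℝ := |x - round x|

/-- `MLRC d`: for all pairwise distinct positive integers `s 0, ..., s (k - 1)` some time `t` has
`‖s_i t‖ ≥ d_i` for all `i`. -/
def MLRC {k : ℕ} (d : Fin k → ℝ) : Prop :=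
  ∀ s : Fin k → ℕ, (∀ i, 0 < s i) → Function.Injective s → ∃ t : ℝ, ∀ i, d i ≤ dist1 (s i * t)

/-- The mixed lonely runner parameter space `MLPS_k ⊆ (0, 1/2]^k`. -/
def MLPS (k : ℕ) : Set (Fin k → ℝ) := {d | (∀ i, 0 < d i ∧ d i ≤ 1 / 2) ∧ MLRC d}

/-- The upper boundary of `MLPS_k`: its maximal points for the coordinatewise order. -/
def upperBoundary (k : ℕ) : Set (Fin k → ℝ) :=
  {d | d ∈ MLPS k ∧ ¬ ∃ e ∈ MLPS k, e ≠ d ∧ ∀ i, d i ≤ e i}

/-- The diagonal point `D_k = (1 / (k + 1), ..., 1 / (k + 1))`. -/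
noncomputable def D (k : ℕ) : Fin k → ℝ := fun _ => 1 / ((k : ℝ) + 1)

theorem dist1_eq (x : ℝ) : dist1 x = nint x := rfl

theorem dist1_circle (n : ℕ) (t : ℝ) : dist1 (n * t) = ‖n • (t : UnitAddCircle)‖ := by
  rw [dist1, ← UnitAddCircle.norm_eq]
  congr 1
  rw [← AddCircle.coe_nsmul, nsmul_eq_mul]

theorem MLRC_circle {k : ℕ} {d : Fin k → ℝ} : MLRC d ↔ ∀ s : Fin k → ℕ, (∀ i, 0 < s i) →
    Function.Injective s → ∃ x : UnitAddCircle, ∀ i, d i ≤ ‖s i • x‖ := by
  constructor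
  · intro h s h1 h2
    obtain ⟨t, ht⟩ := h s h1 h2
    exact ⟨t, fun i => by rw [← dist1_circle]; exact ht i⟩
  · intro h s h1 h2
    obtain ⟨x, hx⟩ := h s h1 h2
    obtain ⟨t, rfl⟩ := QuotientAddGroup.mk_surjective x
    exact ⟨t, fun i => by rw [dist1_circle]; exact hx i⟩

theorem isClosed_MLRC (k : ℕ) : IsClosed {d : Fin k → ℝ | MLRC d} := by
  have : {d : Fin k → ℝ | MLRC d} = ⋂ (s : Fin k → ℕ) (_ : ∀ i, 0 < s i)
      (_ : Function.Injective s), Prod.fst '' {p : (Fin k → ℝ) × UnitAddCircle |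
        ∀ i, p.1 i ≤ ‖s i • p.2‖} := by
    ext d
    simp only [Set.mem_ofPred_eq, MLRC_circle, Set.mem_iInter, Set.mem_image, Prod.exists,
      exists_and_right, exists_eq_right]
  rw [this]
  refine isClosed_iInter fun s => isClosed_iInter fun _ => isClosed_iInter fun _ => ?_
  apply isClosedMap_fst_of_compactSpace
  simp only [Set.ofPred_forall]
  refine isClosed_iInter fun i => ?_
  apply isClosed_le
  · fun_prop
  · fun_prop

theorem MLRC_perm {k : ℕ} {d : Fin k → ℝ} (σ : Equiv.Perm (Fin k)) (h : MLRC d) :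
    MLRC (d ∘ σ) := by
  intro s h1 h2
  obtain ⟨t, ht⟩ := h (s ∘ σ.symm) (fun i => h1 _) (h2.comp σ.symm.injective)
  refine ⟨t, fun i => ?_⟩
  have := ht (σ i)
  simpa using this

theorem MLPS_perm {k : ℕ} {d : Fin k → ℝ} (σ : Equiv.Perm (Fin k)) (h : d ∈ MLPS k) :
    d ∘ σ ∈ MLPS k := ⟨fun i => h.1 (σ i), MLRC_perm σ h.2⟩

theorem upperBoundary_perm {k : ℕ} {d : Fin k → ℝ} (σ : Equiv.Perm (Fin k))
    (h : d ∈ upperBoundary k) : d ∘ σ ∈ upperBoundary k := by
  refine ⟨MLPS_perm σ h.1, ?_⟩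
  rintro ⟨e, he, hne, hle⟩
  apply h.2
  refine ⟨e ∘ σ.symm, MLPS_perm σ.symm he, ?_, fun i => ?_⟩
  · rintro rfl
    apply hne
    ext i; simp
  · have := hle (σ.symm i)
    simpa using this

/-- Every point of `MLPS_k` lies below a point of the upper boundary. -/
theorem exists_upper {k : ℕ} {d : Fin k → ℝ} (hd : d ∈ MLPS k) :
    ∃ e ∈ upperBoundary k, ∀ i, d i ≤ e i := by
  set K : Set (Fin k → ℝ) := {e | MLRC e} ∩ Set.Icc d (fun _ => 1 / 2) with hK
  have hKc : IsCompact K := (isCompact_Icc).inter_left (isClosed_MLRC k)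
  have hne : K.Nonempty := ⟨d, hd.2, le_rfl, fun i => (hd.1 i).2⟩
  obtain ⟨e, he, hmax⟩ := hKc.exists_isMaxOn hne
    (f := fun e : Fin k → ℝ => ∑ i, e i) (by fun_prop)
  have hmem : e ∈ MLPS k := ⟨fun i => ⟨lt_of_lt_of_le (hd.1 i).1 (he.2.1 i), he.2.2 i⟩, he.1⟩
  refine ⟨e, ⟨hmem, ?_⟩, he.2.1⟩
  rintro ⟨f, hf, hne', hle⟩
  have hfK : f ∈ K := ⟨hf.2, le_trans he.2.1 hle, fun i => (hf.1 i).2⟩
  have h1 : ∑ i, f i ≤ ∑ i, e i := hmax hfK
  have h2 : ∑ i, e i ≤ ∑ i, f i := Finset.sum_le_sum fun i _ => hle i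
  have h3 : ∑ i, e i = ∑ i, f i := le_antisymm h2 h1
  have h4 := (Finset.sum_eq_sum_iff_of_le fun i _ => hle i).1 h3
  exact hne' (funext fun i => (h4 i (Finset.mem_univ i)).symm)

theorem volume_small {n : ℕ} (hn : 0 < n) (ε : ℝ) :
    volume {x : UnitAddCircle | ‖n • x‖ < ε} ≤ ENNReal.ofReal (2 * ε) := by
  have hmp : MeasurePreserving (fun x : UnitAddCircle => (n : ℤ) • x) volume volume :=
    Measure.measurePreserving_zsmul volume (by exact_mod_cast hn.ne')
  have h1 : {x : UnitAddCircle | ‖n • x‖ < ε} =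
      (fun x : UnitAddCircle => (n : ℤ) • x) ⁻¹' Metric.ball 0 ε := by
    ext x
    simp [natCast_zsmul]
  rw [h1, hmp.measure_preimage measurableSet_ball.nullMeasurableSet]
  calc volume (Metric.ball (0 : UnitAddCircle) ε) ≤ volume (Metric.closedBall (0 : UnitAddCircle) ε) :=
        measure_mono Metric.ball_subset_closedBall
    _ = ENNReal.ofReal (min 1 (2 * ε)) := AddCircle.volume_closedBall 1 ε
    _ ≤ ENNReal.ofReal (2 * ε) := ENNReal.ofReal_le_ofReal (min_le_right _ _)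

/-- The point `(9 / 20, 1 / 100, 1 / 100)` lies in `MLPS_3`. -/
theorem low_mem : (![9 / 20, 1 / 100, 1 / 100] : Fin 3 → ℝ) ∈ MLPS 3 := by
  refine ⟨fun i => by fin_cases i <;> norm_num, MLRC_circle.2 fun s h1 _ => ?_⟩
  by_contra hcon
  push Not at hcon
  have hcov : (Set.univ : Set UnitAddCircle) ⊆ {x | ‖s 0 • x‖ < 9 / 20} ∪
      ({x | ‖s 1 • x‖ < 1 / 100} ∪ {x | ‖s 2 • x‖ < 1 / 100}) := by
    intro x _
    obtain ⟨i, hi⟩ := hcon x
    fin_cases i
    · left; simpa using hi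
    · right; left; simpa using hi
    · right; right; simpa using hi
  have h2 := (measure_mono (μ := (volume : Measure UnitAddCircle)) hcov).trans ((measure_union_le _ _).trans
    (add_le_add le_rfl (measure_union_le _ _)))
  have h3 := h2.trans (add_le_add (volume_small (h1 0) _)
    (add_le_add (volume_small (h1 1) _) (volume_small (h1 2) _)))
  rw [UnitAddCircle.measure_univ, ← ENNReal.ofReal_add (by norm_num) (by norm_num),
    ← ENNReal.ofReal_add (by norm_num) (by norm_num)] at h3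
  have h4 : ENNReal.ofReal (2 * (9 / 20) + (2 * (1 / 100) + 2 * (1 / 100))) < 1 := by
    rw [← ENNReal.ofReal_one]
    exact (ENNReal.ofReal_lt_ofReal_iff (by norm_num)).2 (by norm_num)
  exact absurd h3 (not_le.2 h4)

/-- The point `(9 / 25, 1 / 5, 1 / 5)` lies in `MLPS_3`. -/
theorem high_mem : (![9 / 25, 1 / 5, 1 / 5] : Fin 3 → ℝ) ∈ MLPS 3 := by
  refine ⟨fun i => by fin_cases i <;> norm_num, fun s h1 h2 => ?_⟩
  obtain ⟨t, q1, q2, q3⟩ := three_mixed (h1 0) (h1 1) (h1 2) (h2.ne (by decide))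
    (h2.ne (by decide)) (h2.ne (by decide))
  refine ⟨t, fun i => ?_⟩
  fin_cases i
  · simpa [dist1_eq] using q1
  · simpa [dist1_eq] using q2
  · simpa [dist1_eq] using q3

theorem D_mem : D 3 ∈ MLPS 3 := by
  refine ⟨fun i => by simp only [D]; norm_num, fun s h1 h2 => ?_⟩
  obtain ⟨t, q1, q2, q3⟩ := three_quarter (h1 0) (h1 1) (h1 2)
  refine ⟨t, fun i => ?_⟩
  have hD : D 3 i = 1 / 4 := by simp only [D]; norm_num
  rw [hD]
  fin_cases i
  · simpa [dist1_eq] using q1
  · simpa [dist1_eq] using q2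
  · simpa [dist1_eq] using q3

/-- If `‖t‖ ≥ 9 / 20` then `‖2 t‖ ≤ 1 / 10`. -/
theorem near_half {t : ℝ} (h : 9 / 20 ≤ dist1 t) : dist1 (2 * t) ≤ 1 / 10 := by
  rw [dist1_eq] at *
  unfold nint at h
  rcases le_abs.1 h with h1 | h1
  · have h2 : t - round t ≤ 1 / 2 := (le_abs_self _).trans (abs_sub_round t)
    refine (nint_le (2 * t) (2 * round t + 1)).trans ?_
    rw [abs_le]; push_cast; constructor <;> linarith
  · have h2 : -(t - round t) ≤ 1 / 2 := (neg_le_abs _).trans (abs_sub_round t)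
    refine (nint_le (2 * t) (2 * round t - 1)).trans ?_
    rw [abs_le]; push_cast; constructor <;> linarith

/-- A point of `MLPS_3` with first coordinate at least `9 / 20` has small coordinate sum. -/
theorem sum_small {e : Fin 3 → ℝ} (he : e ∈ MLPS 3) (h : 9 / 20 ≤ e 0) :
    e 0 + e 1 + e 2 ≤ 7 / 10 := by
  have h0 := (he.1 0).2
  obtain ⟨t, ht⟩ := he.2 ![1, 2, 3] (fun i => by fin_cases i <;> simp) (by decide)
  obtain ⟨u, hu⟩ := he.2 ![1, 3, 2] (fun i => by fin_cases i <;> simp) (by decide)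
  have t0 := ht 0
  have t1 := ht 1
  have u0 := hu 0
  have u2 := hu 2
  simp at t0 t1 u0 u2
  have := near_half (h.trans t0)
  have := near_half (h.trans u0)
  linarith

/-- Averaging over the cyclic permutations. -/
theorem avg_mem {S : Set (Fin 3 → ℝ)} {e : Fin 3 → ℝ}
    (h0 : e ∈ S) (h1 : (e ∘ finRotate 3) ∈ S) (h2 : (e ∘ (finRotate 3 * finRotate 3 : Equiv.Perm (Fin 3))) ∈ S) :
    (fun _ => (e 0 + e 1 + e 2) / 3 : Fin 3 → ℝ) ∈ convexHull ℝ S := by
  have hc := convex_convexHull ℝ S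
  have m0 := subset_convexHull ℝ S h0
  have m1 := subset_convexHull ℝ S h1
  have m2 := subset_convexHull ℝ S h2
  have a := hc m0 m1 (a := 1 / 2) (b := 1 / 2) (by norm_num) (by norm_num) (by norm_num)
  have b := hc a m2 (a := 2 / 3) (b := 1 / 3) (by norm_num) (by norm_num) (by norm_num)
  convert b using 1
  ext i
  fin_cases i <;> simp <;> ring_nf

theorem mem_diff {e : Fin 3 → ℝ} (he : e ∈ upperBoundary 3) (h : e 0 + e 1 + e 2 ≠ 3 / 4)
    (σ : Equiv.Perm (Fin 3)) : e ∘ σ ∈ upperBoundary 3 \ {D 3} := by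
  refine ⟨upperBoundary_perm σ he, fun hD => h ?_⟩
  have key : ∀ i, e i = 1 / 4 := by
    intro i
    have := congrFun (Set.mem_singleton_iff.1 hD) (σ.symm i)
    simp only [Function.comp, Equiv.apply_symm_apply, D] at this
    rw [this]; norm_num
  rw [key 0, key 1, key 2]; norm_num

/-- The answer to the question is negative for `k = 3`: the point `D_3` lies in `MLPS_3`, and it is
a convex combination of points of the upper boundary of `MLPS_3` different from `D_3`. -/
theorem result : D 3 ∈ MLPS 3 ∧ D 3 ∈ convexHull ℝ (upperBoundary 3 \ {D 3}) := by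
  refine ⟨D_mem, ?_⟩
  obtain ⟨p, hp, hp'⟩ := exists_upper high_mem
  obtain ⟨q, hq, hq'⟩ := exists_upper low_mem
  have hps : 19 / 25 ≤ p 0 + p 1 + p 2 := by
    have h0 := hp' 0
    have h1 := hp' 1
    have h2 := hp' 2
    simp at h0 h1 h2
    linarith
  have hqs : q 0 + q 1 + q 2 ≤ 7 / 10 := by
    apply sum_small hq.1
    have h0 := hq' 0
    simpa using h0
  have m1 := avg_mem (e := p) (S := upperBoundary 3 \ {D 3})
    (by have := mem_diff hp (by linarith) 1; simpa using this) (mem_diff hp (by linarith) _)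
    (mem_diff hp (by linarith) _)
  have m2 := avg_mem (e := q) (S := upperBoundary 3 \ {D 3})
    (by have := mem_diff hq (by linarith) 1; simpa using this) (mem_diff hq (by linarith) _)
    (mem_diff hq (by linarith) _)
  set x := p 0 + p 1 + p 2 with hx
  set y := q 0 + q 1 + q 2 with hy
  have hxy : 0 < x - y := by linarith
  have m := (convex_convexHull ℝ (upperBoundary 3 \ {D 3})) m1 m2
    (a := (3 / 4 - y) / (x - y)) (b := (x - 3 / 4) / (x - y))
    (div_nonneg (by linarith) hxy.le) (div_nonneg (by linarith) hxy.le)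
    (by field_simp; ring)
  convert m using 1
  ext i
  simp only [D, Pi.add_apply, Pi.smul_apply, smul_eq_mul]
  field_simp
  ring

end Pool.Agent.Results.MP_b0d7fb_nt.DiagonalInHull
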